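import Pool.Agent.Work.MP_223b32_tc.Interface

/-!
# Block EXI: the auxiliary polynomial in Stepanov's method
-/

namespace Pool.Agent.Work.TC.EXI

open Finset Polynomial

variable {E : Type} [Field E] [Fintype E]

theorem hasse_mul_X (f : E[X]) (x : E) (j k : ℕ) (hk : k < Fintype.card E) :
    (hasseDeriv k (f * X ^ (j * Fintype.card E))).eval x = (hasseDeriv k f).eval x * x ^ j := by
  set Q := Fintype.card E with hQ
  have h1 : taylor x (X ^ (j * Q)) = (X ^ Q + C x) ^ j := by
    rw [mul_comm, pow_mul, taylor_pow, taylor_pow, taylor_X]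
    congr 1
    rw [← FiniteField.expand_card (X + C x), map_add, expand_X, expand_C]
  have h2 : ∃ B : E[X], (X ^ Q + C x) ^ j = C (x ^ j) + X ^ Q * B := by
    have h3 : X ^ Q ∣ (X ^ Q + C x) ^ j - (C x) ^ j := by
      have h4 := sub_dvd_pow_sub_pow (X ^ Q + C x) (C x) j
      rwa [add_sub_cancel_right] at h4
    obtain ⟨B, hB⟩ := h3
    refine ⟨B, ?_⟩
    rw [← hB, C_pow]
    ring
  obtain ⟨B, hB⟩ := h2
  rw [← taylor_coeff, ← taylor_coeff, taylor_mul, h1, hB, mul_add, coeff_add, coeff_mul_C]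
  have h5 : (taylor x f * (X ^ Q * B)).coeff k = 0 := by
    rw [show taylor x f * (X ^ Q * B) = X ^ Q * (taylor x f * B) by ring, coeff_X_pow_mul',
      if_neg (not_le_of_gt hk)]
  rw [h5, add_zero]

end Pool.Agent.Work.TC.EXI

namespace Pool.Agent.Work.TC

open Finset Polynomial

theorem stmt_EXI (hHD : Stmt_HD) : Stmt_EXI := by
  classical
  intro E _ _ hE H d D J l a hd hH hl hJ hcount
  set Q := Fintype.card E with hQ
  set u := Q / 2 with hu
  have hT : ∀ k : Fin l, ∃ T : E[X] →ₗ[E] E[X],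
      (∀ r, hasseDeriv (k : ℕ) (H ^ l * r) = H ^ (l - k) * T r) ∧
      ∀ (D : ℕ) (r : E[X]), r ∈ degreeLT E D → T r ∈ degreeLT E (D + k * (d - 1)) :=
    fun k => hHD E H d hd hH l k k.2.le
  have hT' : ∀ k : Fin l, ∃ T : E[X] →ₗ[E] E[X],
      (∀ r, hasseDeriv (k : ℕ) (H ^ (l + u) * r) = H ^ (l + u - k) * T r) ∧
      ∀ (D : ℕ) (r : E[X]), r ∈ degreeLT E D → T r ∈ degreeLT E (D + k * (d - 1)) :=
    fun k => hHD E H d hd hH (l + u) k (k.2.le.trans (Nat.le_add_right _ _))
  choose T hT1 hT2 using hT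
  choose T' hT1' hT2' using hT'
  -- the linear map
  let L : ((Fin J → degreeLT E D) × (Fin J → degreeLT E D)) →ₗ[E]
      (∀ k : Fin l, degreeLT E (D + k * (d - 1) + J)) :=
    { toFun := fun v k => ⟨∑ j, (T k (v.1 j) + C a * T' k (v.2 j)) * X ^ (j : ℕ), by
        refine Submodule.sum_mem _ fun j _ => ?_
        have h1 : T k (v.1 j) + C a * T' k (v.2 j) ∈ degreeLT E (D + k * (d - 1)) := by
          rw [← smul_eq_C_mul]
          exact Submodule.add_mem _ (hT2 k D _ (v.1 j).2)
            (Submodule.smul_mem _ _ (hT2' k D _ (v.2 j).2))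
        rw [mem_degreeLT] at h1 ⊢
        by_cases h0 : T k (v.1 j) + C a * T' k (v.2 j) = 0
        · rw [h0, zero_mul, degree_zero]
          exact WithBot.bot_lt_coe _
        · rw [degree_mul, degree_X_pow]
          rw [degree_eq_natDegree h0] at h1 ⊢
          have h2 : (T k (v.1 j) + C a * T' k (v.2 j)).natDegree < D + k * (d - 1) := by
            exact_mod_cast h1
          have h3 := j.2
          have h4 : (T k (v.1 j) + C a * T' k (v.2 j)).natDegree + (j : ℕ) <
              D + k * (d - 1) + J := by omega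
          exact_mod_cast h4⟩
      map_add' := by
        intro v w
        ext k : 2
        simp only [Pi.add_apply, Submodule.coe_add]
        rw [← Finset.sum_add_distrib]
        refine Finset.sum_congr rfl fun j _ => ?_
        have e1 : (((v + w).1 j : degreeLT E D) : E[X]) = v.1 j + w.1 j := rfl
        have e2 : (((v + w).2 j : degreeLT E D) : E[X]) = v.2 j + w.2 j := rfl
        rw [e1, e2, map_add, map_add]
        ring
      map_smul' := by
        intro c v
        ext k : 2
        simp only [Pi.smul_apply, Submodule.coe_smul, RingHom.id_apply]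
        rw [Finset.smul_sum]
        refine Finset.sum_congr rfl fun j _ => ?_
        have e1 : (((c • v).1 j : degreeLT E D) : E[X]) = c • (v.1 j : E[X]) := rfl
        have e2 : (((c • v).2 j : degreeLT E D) : E[X]) = c • (v.2 j : E[X]) := rfl
        rw [e1, e2, map_smul, map_smul, smul_eq_C_mul, smul_eq_C_mul, smul_eq_C_mul]
        ring }
  have hfin : Module.finrank E (∀ k : Fin l, degreeLT E (D + k * (d - 1) + J)) <
      Module.finrank E ((Fin J → degreeLT E D) × (Fin J → degreeLT E D)) := by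
    have e1 : ∀ n, Module.finrank E (degreeLT E n) = n := fun n => by
      rw [LinearEquiv.finrank_eq (degreeLTEquiv E n), Module.finrank_fin_fun]
    rw [Module.finrank_pi_fintype, Module.finrank_prod, Module.finrank_pi_fintype]
    simp only [e1, Finset.sum_const, card_univ, Fintype.card_fin, smul_eq_mul]
    have e2 : ∑ k : Fin l, (D + (k : ℕ) * (d - 1) + J) = l * (D + J) + (∑ k : Fin l, (k : ℕ)) * (d - 1) := by
      rw [Finset.sum_mul]
      have : ∀ k : Fin l, D + (k : ℕ) * (d - 1) + J = (D + J) + (k : ℕ) * (d - 1) := fun k => by ring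
      rw [Finset.sum_congr rfl fun k _ => this k, Finset.sum_add_distrib]
      simp
    have e3 : (∑ k : Fin l, (k : ℕ)) * 2 = l * (l - 1) := by
      rw [Fin.sum_univ_eq_sum_range (fun k => k) l, Finset.sum_range_id_mul_two]
    rw [e2]
    have e4 : (∑ k : Fin l, (k : ℕ)) * (d - 1) * 2 = (d - 1) * (l * (l - 1)) := by
      rw [← e3]; ring
    nlinarith
  have hker := LinearMap.ker_ne_bot_of_finrank_lt (f := L) hfin
  obtain ⟨v, hv, hv0⟩ := Submodule.exists_mem_ne_zero_of_ne_bot hker
  rw [LinearMap.mem_ker] at hv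
  have hv' : ∀ k : Fin l, ∑ j, (T k (v.1 j) + C a * T' k (v.2 j)) * X ^ (j : ℕ) = 0 := fun k => by
    have := congrArg Subtype.val (congrFun hv k)
    exact this
  refine ⟨fun j => v.1 j, fun j => v.2 j, fun j => (v.1 j).2, fun j => (v.2 j).2, ?_, ?_⟩
  · by_contra hcon
    push Not at hcon
    refine hv0 ?_
    refine Prod.ext (funext fun j => ?_) (funext fun j => ?_)
    · exact Subtype.ext (hcon j).1
    · exact Subtype.ext (hcon j).2
  · intro x hx k hk
    have hkQ : k < Q := hk.trans_le hl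
    have h1 : H ^ l * ∑ j, ((v.1 j : E[X]) + (v.2 j : E[X]) * H ^ u) * X ^ ((j : ℕ) * Q) =
        ∑ j : Fin J, ((H ^ l * (v.1 j : E[X])) * X ^ ((j : ℕ) * Q) +
          (H ^ (l + u) * (v.2 j : E[X])) * X ^ ((j : ℕ) * Q)) := by
      rw [Finset.mul_sum]
      exact Finset.sum_congr rfl fun j _ => by rw [pow_add]; ring
    rw [h1, map_sum, eval_finsetSum]
    have h2 : ∀ j : Fin J, (hasseDeriv k ((H ^ l * (v.1 j : E[X])) * X ^ ((j : ℕ) * Q) +
          (H ^ (l + u) * (v.2 j : E[X])) * X ^ ((j : ℕ) * Q))).eval x =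
        H.eval x ^ (l - k) * ((T ⟨k, hk⟩ (v.1 j) + C a * T' ⟨k, hk⟩ (v.2 j)) * X ^ (j : ℕ)).eval x := by
      intro j
      rw [map_add, eval_add, EXI.hasse_mul_X _ _ _ _ hkQ, EXI.hasse_mul_X _ _ _ _ hkQ]
      have h3 := hT1 ⟨k, hk⟩ (v.1 j)
      have h4 := hT1' ⟨k, hk⟩ (v.2 j)
      simp only at h3 h4
      rw [h3, h4, eval_mul, eval_mul, eval_pow, eval_pow,
        show l + u - k = (l - k) + u by omega, pow_add, hx]
      simp only [eval_mul, eval_add, eval_C, eval_pow, eval_X]
      ring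
    rw [Finset.sum_congr rfl fun j _ => h2 j, ← Finset.mul_sum, ← eval_finsetSum, hv' ⟨k, hk⟩,
      eval_zero, mul_zero]

end Pool.Agent.Work.TC
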