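import Pool.Agent.Work.MP_223b32_tc.Interface

/-!
# ONE: a bad tuple satisfies one of the linear conditions
-/

namespace Pool.Agent.Work.TC

open Finset Polynomial

namespace ONE

/-- an element of an extension of a finite field fixed by the Frobenius lies in the field -/
lemma mem_range_of_pow_card {F K : Type} [Field F] [Fintype F] [Field K] (φ : F →+* K) (a : K)
    (h : a ^ Fintype.card F = a) : ∃ x : F, φ x = a := by
  have h1 : (X ^ Fintype.card F - X : F[X]) ≠ 0 :=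
    FiniteField.X_pow_card_sub_X_ne_zero F Fintype.one_lt_card
  have h2 : Multiset.card (X ^ Fintype.card F - X : F[X]).roots =
      (X ^ Fintype.card F - X : F[X]).natDegree := by
    rw [FiniteField.roots_X_pow_card_sub_X,
      FiniteField.X_pow_card_sub_X_natDegree_eq F Fintype.one_lt_card]
    simp
  have h3 := Polynomial.roots_map_of_injective_of_card_eq_natDegree φ.injective h2
  have h4 : a ∈ ((X ^ Fintype.card F - X : F[X]).map φ).roots := by
    rw [Polynomial.mem_roots_map h1]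
    simp [h]
  rw [← h3, Multiset.mem_map] at h4
  obtain ⟨x, _, hx⟩ := h4
  exact ⟨x, hx⟩

variable {F K : Type} [Field F] [Fintype F] [Field K] [Fintype K] [DecidableEq K] [Algebra F K]

lemma bb_zero (a : K) : bb F a 0 = 1 := by
  simp [bb, val]

/-- the data of one curve -/
lemma data (hFROB : Stmt_FROB) (hB4 : Stmt_B4) (hFE : Stmt_FE) (hRED : Stmt_RED)
    (hF : ringChar F ≠ 2) (n : ℕ) (hn : n.Prime) (hn2 : n ≠ 2) (hfin : Module.finrank F K = n)
    (ρ : integralClosure ℤ ℂ →+* AlgebraicClosure (ZMod 2)) (a : K)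
    (ha : a ∉ (algebraMap F K).range) :
    ∃ (c : ℂ) (r : ℕ → ℕ) (β : Fin (n - 1) → ℂ) (β' w : Fin (n - 1) → integralClosure ℤ ℂ),
      c = ((@quadraticChar F _ _ (Classical.decEq F) (-1) : ℤ) : ℂ) ∧
      IsFrob F (minpoly F a) (fun i => c * β i) ∧
      (∀ i, (β' i : ℂ) = β i) ∧
      (∀ i, β' i ^ (n - 1 + 1) = 1 + 2 * w i) ∧
      (∀ i, ρ (w i) = ZZ (n - 1 + 1) r (ρ (β' i))) ∧
      (∀ i, ρ (β' i) ^ (n - 1 + 1) = 1 ∧ ρ (β' i) ≠ 1) ∧
      (Function.Injective fun i => ρ (β' i)) ∧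
      (∀ i, ∃ j, β i * β j = Fintype.card F) ∧
      (∀ k, 1 ≤ k → k < n → r k = dl F a k) := by
  classical
  set q := Fintype.card F with hq
  have hn1 : n - 1 + 1 = n := Nat.sub_add_cancel hn.one_le
  have hodd : Odd n := hn.odd_of_ne_two hn2
  have hNeven : Even (n - 1) := by
    obtain ⟨k, hk⟩ := hodd
    exact ⟨k, by omega⟩
  have hqodd : Odd q := by
    have := FiniteField.odd_card_of_char_ne_two hF
    exact Nat.odd_iff.2 this
  have hqpos : 0 < q := Fintype.card_pos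
  have hKfin : Module.Finite F K := Module.Finite.of_finite
  have hdeg : (minpoly F a).natDegree = Module.finrank F K := by
    have h1 : (minpoly F a).natDegree ∣ Module.finrank F K := minpoly.degree_dvd
      (Algebra.IsIntegral.isIntegral a)
    rw [hfin] at h1 ⊢
    rcases (Nat.dvd_prime hn).1 h1 with h2 | h2
    · exfalso
      apply ha
      rw [minpoly.natDegree_eq_one_iff] at h2
      exact h2
    · exact h2
  have hfinodd : Odd (Module.finrank F K) := by rw [hfin]; exact hodd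
  obtain ⟨β, hβ1, hβ2⟩ := hFROB F K hF hfinodd a hdeg (n - 1) (by rw [hfin, hn1])
  -- functional equation
  have hfe : ∀ j, j ≤ n - 1 → bb F a (n - 1) * bb F a j = (q : ℤ) ^ j * bb F a (n - 1 - j) := by
    intro j hj
    have := hFE F K hF hfinodd a hdeg (n - 1 - j) j (by rw [hfin]; omega)
    rw [Nat.sub_add_cancel hj] at this
    exact this
  have hbN : bb F a (n - 1) * bb F a (n - 1) = (q : ℤ) ^ (n - 1) := by
    rw [hfe (n - 1) le_rfl, Nat.sub_self, bb_zero, mul_one]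
  have hbNodd : Odd (bb F a (n - 1)) := by
    have h1 : Odd ((q : ℤ) ^ (n - 1)) := by
      have : Odd (q : ℤ) := by exact_mod_cast hqodd
      exact this.pow
    rw [← hbN] at h1
    exact (Int.odd_mul.1 h1).1
  have hbN0 : bb F a (n - 1) ≠ 0 := by
    intro h0
    rw [h0] at hbNodd
    exact absurd hbNodd (by decide)
  -- the bits
  set r : ℕ → ℕ := fun k => if k = n then (if (q : ℤ) * bb F a (n - 1) ≡ 1 [ZMOD 4] then 0 else 1)
    else dl F a k with hr
  have hrk : ∀ k, k < n → r k = dl F a k := by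
    intro k hk
    simp only [hr, if_neg hk.ne]
  have hrec : ∀ m, m < n - 1 → bb F a (m + 1) ≡ q * bb F a m + 2 * r (m + 1) [ZMOD 4] := by
    intro m hm
    have h1 := hB4 F K hF n hn hfin a ha (m + 1) (by omega)
    have h2 := hB4 F K hF n hn hfin a ha m (by omega)
    rw [hrk (m + 1) (by omega)]
    have h3 : (q : ℤ) * bb F a m ≡ q * ((q : ℤ) ^ m + 2 * ∑ k ∈ Icc 1 m, (dl F a k : ℤ))
        [ZMOD 4] := h2.mul_left _
    have h4 : (q : ℤ) * ((q : ℤ) ^ m + 2 * ∑ k ∈ Icc 1 m, (dl F a k : ℤ)) ≡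
        (q : ℤ) ^ (m + 1) + 2 * ∑ k ∈ Icc 1 m, (dl F a k : ℤ) [ZMOD 4] := by
      obtain ⟨u, hu⟩ := hqodd
      refine Int.modEq_iff_dvd.2 ⟨- u * ∑ k ∈ Icc 1 m, (dl F a k : ℤ), ?_⟩
      have hu' : (q : ℤ) = 2 * u + 1 := by exact_mod_cast hu
      rw [pow_succ]
      linear_combination (-2 * ∑ k ∈ Icc 1 m, (dl F a k : ℤ)) * hu'
    have h5 : (q : ℤ) ^ (m + 1) + 2 * ∑ k ∈ Icc 1 (m + 1), (dl F a k : ℤ) =
        ((q : ℤ) ^ (m + 1) + 2 * ∑ k ∈ Icc 1 m, (dl F a k : ℤ)) + 2 * dl F a (m + 1) := by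
      rw [Finset.sum_Icc_succ_top (by omega)]
      ring
    rw [h5] at h1
    exact h1.trans ((h3.trans h4).symm.add_right _)
  have hlast : (q : ℤ) * bb F a (n - 1) ≡ 1 + 2 * r (n - 1 + 1) [ZMOD 4] := by
    rw [hn1]
    have hrn : r n = if (q : ℤ) * bb F a (n - 1) ≡ 1 [ZMOD 4] then 0 else 1 := by
      simp only [hr, if_true]
    rw [hrn]
    split_ifs with h
    · simpa using h
    · have h1 : Odd ((q : ℤ) * bb F a (n - 1)) := by
        have : Odd (q : ℤ) := by exact_mod_cast hqodd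
        exact this.mul hbNodd
      obtain ⟨u, hu⟩ := h1
      rw [hu] at h ⊢
      simp only [Int.ModEq] at h ⊢
      push_cast
      omega
  obtain ⟨β', w, h1, h2, h3, h4, h5⟩ := hRED ρ (n - 1) q hNeven hqodd (bb F a) r (bb_zero a) hrec
    hlast β hβ1
  refine ⟨_, r, β, β', w, rfl, ?_, h1, h2, h3, h4, h5, ?_, fun k _ hk => hrk k hk⟩
  · exact hβ2
  · -- the roots are closed under `q / ·`
    intro i
    set P : ℂ[X] := ∑ m ∈ range (n - 1 + 1), C (bb F a m : ℂ) * X ^ (n - 1 - m) with hP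
    have hPi : P.eval (β i) = 0 := by
      rw [← hβ1, eval_prod]
      exact Finset.prod_eq_zero (mem_univ i) (by simp)
    have hPe : ∀ z : ℂ, P.eval z = ∑ m ∈ range (n - 1 + 1), (bb F a m : ℂ) * z ^ (n - 1 - m) := by
      intro z
      rw [hP, eval_finsetSum]
      simp
    have hβ0 : β i ≠ 0 := by
      intro h0
      rw [hPe, h0, Finset.sum_range_succ, Nat.sub_self, pow_zero, mul_one] at hPi
      have h6 : ∑ m ∈ range (n - 1), (bb F a m : ℂ) * (0 : ℂ) ^ (n - 1 - m) = 0 := by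
        refine Finset.sum_eq_zero fun m hm => ?_
        rw [zero_pow (by have := mem_range.1 hm; omega), mul_zero]
      rw [h6, zero_add] at hPi
      exact hbN0 (by exact_mod_cast hPi)
    have h7 : β i ^ (n - 1) * P.eval ((q : ℂ) / β i) = (bb F a (n - 1) : ℂ) * P.eval (β i) := by
      rw [hPe, hPe, Finset.mul_sum, Finset.mul_sum, ← Finset.sum_range_reflect]
      refine Finset.sum_congr rfl fun m hm => ?_
      have hm' : m ≤ n - 1 := by have := mem_range.1 hm; omega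
      have e1 : n - 1 + 1 - 1 - m = n - 1 - m := by omega
      have e2 : n - 1 - (n - 1 - m) = m := by omega
      rw [e1, e2]
      have e3 : (bb F a (n - 1) : ℂ) * (bb F a m : ℂ) = (q : ℂ) ^ m * (bb F a (n - 1 - m) : ℂ) := by
        exact_mod_cast congrArg (Int.cast : ℤ → ℂ) (hfe m hm')
      rw [← mul_assoc (bb F a (n - 1) : ℂ), e3, div_pow]
      have e4 : β i ^ (n - 1) = β i ^ (n - 1 - m) * β i ^ m := by
        rw [← pow_add, Nat.sub_add_cancel hm']
      rw [e4]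
      field_simp
    have h8 : P.eval ((q : ℂ) / β i) = 0 := by
      rw [hPi, mul_zero] at h7
      exact (mul_eq_zero.1 h7).resolve_left (pow_ne_zero _ hβ0)
    rw [← hβ1, eval_prod] at h8
    obtain ⟨j, _, hj⟩ := Finset.prod_eq_zero_iff.1 h8
    refine ⟨j, ?_⟩
    have h9 : (q : ℂ) / β i = β j := by
      simpa [sub_eq_zero] using hj
    rw [← h9]
    field_simp

end ONE

/-- ONE. -/
theorem stmt_ONE (hFROB : Stmt_FROB) (hB4 : Stmt_B4) (hFE : Stmt_FE) (hRHO : Stmt_RHO)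
    (hRED : Stmt_RED) (hMOD8 : Stmt_MOD8) (hSTAR : Stmt_STAR) (hDSYM : Stmt_DSYM)
    (hFLA : Stmt_FLA) : Stmt_ONE := by
  classical
  intro F K _ _ _ _ _ _ hF n hn hn2 hfin G _ _ _ hG T J
  obtain ⟨ρ⟩ := hRHO
  have hn1 : n - 1 + 1 = n := Nat.sub_add_cancel hn.one_le
  have hodd : Odd n := hn.odd_of_ne_two hn2
  set q := Fintype.card F with hq
  have hqodd : Odd q := Nat.odd_iff.2 (FiniteField.odd_card_of_char_ne_two hF)
  have hq1 : 1 < q := Fintype.one_lt_card
  have hNeven : Even (n - 1) := by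
    obtain ⟨k, hk⟩ := hodd
    exact ⟨k, by omega⟩
  have hn2' : 2 * (n / 2) + 1 = n := by
    obtain ⟨k, hk⟩ := hodd
    omega
  have hGalg : Algebra.IsAlgebraic (ZMod 2) G := by
    have : Module.Finite (ZMod 2) G := Module.Finite.of_finite
    infer_instance
  set ι : G →ₐ[ZMod 2] AlgebraicClosure (ZMod 2) := IsAlgClosed.lift with hι
  have hιinj : Function.Injective ι := ι.toRingHom.injective
  refine ⟨fun I => ((∑ t, (I t).card * kap (q ^ n) : ℕ) : G) +
    ∑ t, (eps q : G) * ∑ ζ ∈ I t, ∑ k ∈ Icc 1 (n / 2), (ζ ^ k + ζ ^ (2 * k)), ?_⟩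
  intro a ha hbad
  choose c r β β' w hc hfrob h1 h2 h3 h4 h5 h6 h7 using fun t =>
    ONE.data hFROB hB4 hFE hRED hF n hn hn2 hfin ρ (a t) (ha t)
  set c0 : ℂ := ((@quadraticChar F _ _ (Classical.decEq F) (-1) : ℤ) : ℂ) with hc0
  have hc2 : c0 ^ 2 = 1 := by
    have h8 : (@quadraticChar F _ _ (Classical.decEq F) (-1)) ^ 2 = 1 := by
      exact @quadraticChar_sq_one F _ _ (Classical.decEq F) (-1) (neg_ne_zero.2 one_ne_zero)
    rw [hc0]
    exact_mod_cast congrArg (Int.cast : ℤ → ℂ) h8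
  have hc00 : c0 ≠ 0 := by
    intro h0
    rw [h0] at hc2
    norm_num at hc2
  -- there is an unbalanced relation
  have hrel : ∃ s : Multiset ℂ, (∀ z ∈ s, ∃ t i, z = β t i) ∧ s.card ≤ 2 * J ∧
      (∃ M : ℕ, 0 < M ∧ s.prod ^ (2 * M) = (q : ℂ) ^ (M * s.card)) ∧
      ¬ ∀ t i, s.count ((q : ℂ) / β t i) = s.count (β t i) := by
    by_contra hcon
    push Not at hcon
    apply hbad
    refine ⟨fun t i => c t * β t i, fun t => hfrob t, ?_⟩
    intro V _ _ _ Φ hΦ k hk hev
    refine hFLA V Φ hΦ q hq1 (fun μ => ∃ t i, μ = c t * β t i) J ?_ k hk hev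
    intro s hs hsJ M hM hsM z hz
    obtain ⟨t0, i0, rfl⟩ := hz
    have hinj : Function.Injective fun z : ℂ => c0 * z := fun x y hxy => by
      exact mul_left_cancel₀ hc00 hxy
    have hcc : ∀ z : ℂ, c0 * (c0 * z) = z := fun z => by
      rw [← mul_assoc, ← pow_two, hc2, one_mul]
    have h8 := hcon (s.map fun z => c0 * z) ?_ ?_ ⟨M, hM, ?_⟩ t0 i0
    · have e1 : c t0 * β t0 i0 = c0 * β t0 i0 := by rw [hc]
      rw [e1]
      have e2 : (q : ℂ) / (c0 * β t0 i0) = c0 * ((q : ℂ) / β t0 i0) := by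
        have : (1 : ℂ) / c0 = c0 := by
          rw [div_eq_iff hc00, ← pow_two, hc2]
        rw [mul_comm c0, ← div_div, div_eq_mul_one_div _ c0, this, mul_comm]
      rw [e2]
      have e3 : ∀ z : ℂ, s.count (c0 * z) = (s.map fun z => c0 * z).count z := by
        intro z
        conv_rhs => rw [← hcc z]
        exact (Multiset.count_map_eq_count' _ _ hinj _).symm
      rw [e3, e3]
      exact h8
    · intro z hz
      obtain ⟨y, hy, rfl⟩ := Multiset.mem_map.1 hz
      obtain ⟨t, i, rfl⟩ := hs y hy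
      exact ⟨t, i, by rw [hc, hcc]⟩
    · simpa using hsJ
    · rw [Multiset.prod_map_mul, Multiset.map_const', Multiset.prod_replicate, Multiset.map_id',
        Multiset.card_map, mul_pow, ← pow_mul, hsM]
      have e4 : s.card * (2 * M) = 2 * (s.card * M) := by ring
      rw [e4, pow_mul, hc2, one_pow, one_mul]
  obtain ⟨s, hs, hsJ, ⟨M, hM, hsM⟩, hns⟩ := hrel
  rcases hMOD8 ρ (n - 1) q hNeven hqodd T r β β' w h1 h2 h3 h4 h5 h6 s hs M hM hsM with h8 | h8
  · exact absurd h8 hns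
  obtain ⟨I, hIne, hIcard, hIadm, hIsum⟩ := h8
  rw [hn1] at hIadm hIsum
  -- descent to `G`
  have hImem : ∀ t, ∀ ζ ∈ I t, ∃ x : G, ι x = ζ := by
    intro t ζ hζ
    have hζn := (hIadm t ζ hζ).1
    refine ONE.mem_range_of_pow_card (ι : G →+* AlgebraicClosure (ZMod 2)) ζ ?_
    have hdvd : n ∣ 2 ^ orderOf (2 : ZMod n) - 1 := by
      have e1 : ((2 ^ orderOf (2 : ZMod n) - 1 : ℕ) : ZMod n) = 0 := by
        rw [Nat.cast_sub (Nat.one_le_two_pow)]
        push_cast
        rw [pow_orderOf_eq_one, sub_self]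
      exact (ZMod.natCast_eq_zero_iff _ _).1 e1
    obtain ⟨v, hv⟩ := hdvd
    have e2 : Fintype.card G = n * v + 1 := by
      rw [hG, ← hv, Nat.sub_add_cancel Nat.one_le_two_pow]
    rw [e2, pow_succ, pow_mul, hζn, one_pow, one_mul]
  set IG : Fin T → Finset G := fun t => univ.filter fun x => ι x ∈ I t with hIG
  have hImap : ∀ t, I t = (IG t).map ⟨ι, hιinj⟩ := by
    intro t
    ext ζ
    simp only [mem_map, Function.Embedding.coeFn_mk, hIG, mem_filter, mem_univ, true_and]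
    constructor
    · intro hζ
      obtain ⟨x, rfl⟩ := hImem t ζ hζ
      exact ⟨x, hζ, rfl⟩
    · rintro ⟨x, hx, rfl⟩
      exact hx
  have hcardG : ∀ t, (IG t).card = (I t).card := by
    intro t
    rw [hImap t, card_map]
  refine ⟨IG, ?_, ?_, ?_, ?_⟩
  · obtain ⟨t, ht⟩ := hIne
    refine ⟨t, ?_⟩
    rw [← Finset.card_pos, hcardG, Finset.card_pos]
    exact ht
  · simp only [hcardG]
    exact hIcard.trans hsJ
  · intro t x hx
    have hx' : ι x ∈ I t := (mem_filter.1 hx).2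
    obtain ⟨e1, e2, e3⟩ := hIadm t _ hx'
    refine ⟨hιinj (by rw [map_pow, e1, map_one]), fun h => e2 (by rw [h, map_one]), fun h => e3 ?_⟩
    have := (mem_filter.1 h).2
    rwa [map_inv₀] at this
  · apply hιinj
    have hstar : ∀ t, ∑ ζ ∈ I t, (ZZ n (r t) ζ + ZZ n (r t) ζ ^ 2) =
        ∑ k ∈ Icc 1 (n / 2), (dl F (a t) k : AlgebraicClosure (ZMod 2)) * cc n (I t) k +
          (eps q : AlgebraicClosure (ZMod 2)) *
            ∑ ζ ∈ I t, ∑ k ∈ Icc 1 (n / 2), (ζ ^ k + ζ ^ (2 * k)) := by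
      intro t
      have e1 := hSTAR (AlgebraicClosure (ZMod 2)) (n / 2) (eps q) (r t) ?_ (I t) ?_
      · rw [hn2'] at e1
        rw [e1]
        congr 1
        refine Finset.sum_congr rfl fun k hk => ?_
        rw [h7 t k (mem_Icc.1 hk).1 (by have := (mem_Icc.1 hk).2; omega)]
      · intro k hk1 hk2
        rw [hn2', h7 t (n - k) (by omega) (by omega), h7 t k hk1 (by omega)]
        exact hDSYM F K hF n hn hn2 hfin (a t) (ha t) k hk1 (by omega)
      · rw [hn2']
        exact hIadm t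
    have hcc' : ∀ t k, cc n (I t) k = ι (cc n (IG t) k) := by
      intro t k
      rw [hImap t]
      simp [cc, Finset.sum_map]
    have hee : ∀ t, ∑ ζ ∈ I t, ∑ k ∈ Icc 1 (n / 2), (ζ ^ k + ζ ^ (2 * k)) =
        ι (∑ ζ ∈ IG t, ∑ k ∈ Icc 1 (n / 2), (ζ ^ k + ζ ^ (2 * k))) := by
      intro t
      rw [hImap t]
      simp [Finset.sum_map]
    have hchar : ∀ x : AlgebraicClosure (ZMod 2), x + x = 0 := CharTwo.add_self_eq_zero
    rw [Finset.sum_congr rfl fun t _ => hstar t, Finset.sum_add_distrib] at hIsum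
    have hL : ι (∑ t, ∑ k ∈ Icc 1 (n / 2), (dl F (a t) k : G) * cc n (IG t) k) =
        ∑ t, ∑ k ∈ Icc 1 (n / 2), (dl F (a t) k : AlgebraicClosure (ZMod 2)) * cc n (I t) k := by
      simp only [hcc', map_sum, map_mul, map_natCast]
    have hR : ι (((∑ t, (IG t).card * kap (q ^ n) : ℕ) : G) +
        ∑ t, (eps q : G) * ∑ ζ ∈ IG t, ∑ k ∈ Icc 1 (n / 2), (ζ ^ k + ζ ^ (2 * k))) =
        ((∑ t, (I t).card * kap (q ^ n) : ℕ) : AlgebraicClosure (ZMod 2)) +
        ∑ t, (eps q : AlgebraicClosure (ZMod 2)) *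
          ∑ ζ ∈ I t, ∑ k ∈ Icc 1 (n / 2), (ζ ^ k + ζ ^ (2 * k)) := by
      simp only [hee, map_add, map_sum, map_mul, map_natCast, hcardG]
    rw [hL, hR, ← hIsum, add_assoc, hchar, add_zero]

end Pool.Agent.Work.TC
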