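import Pool.Agent.Work.MP_223b32_tc.Interface

/-!
# Block CHS: the correlations of the bits
-/

namespace Pool.Agent.Work.TC.CHS

open Finset Polynomial

theorem sum_pow_le (q : ℕ) (hq : 3 ≤ q) (u : ℕ) : 2 * ∑ k ∈ Icc 1 u, q ^ k ≤ 3 * q ^ u := by
  induction u with
  | zero => simp
  | succ u ih =>
    rw [Finset.sum_Icc_succ_top (by omega)]
    have h1 : 3 * q ^ u ≤ q ^ (u + 1) := by
      rw [pow_succ, mul_comm]
      exact Nat.mul_le_mul_left _ hq
    omega

theorem three_le_card (F : Type) [Field F] [Fintype F] (hF : ringChar F ≠ 2) :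
    3 ≤ Fintype.card F := by
  have h1 := FiniteField.odd_card_of_char_ne_two hF
  have h2 := Fintype.one_lt_card (α := F)
  omega

end Pool.Agent.Work.TC.CHS

namespace Pool.Agent.Work.TC

open Finset Polynomial

theorem stmt_CHS (hW : Stmt_WEIL) (hS : Stmt_SQF) : Stmt_CHS := by
  intro F K _ _ _ _ _ _ hF u t hfin ht S hSne hSu
  set q := Fintype.card F with hq
  have hq3 : 3 ≤ q := CHS.three_le_card F hF
  have hK : ringChar K ≠ 2 := by rwa [← Algebra.ringChar_eq F K]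
  have hcardK : Fintype.card K = q ^ (2 * (u + t) + 1) := by
    rw [Module.card_eq_pow_finrank (K := F) (V := K), hfin]
  set H : K[X] := ∏ k ∈ S, (X ^ (q ^ k) - X : K[X]) with hH
  set d := ∑ k ∈ S, q ^ k with hd
  have hd1 : 1 ≤ d := by
    obtain ⟨k, hk⟩ := hSne
    have h1 : q ^ k ≤ d := Finset.single_le_sum (f := fun k => q ^ k) (fun _ _ => Nat.zero_le _) hk
    have h2 : 1 ≤ q ^ k := Nat.one_le_pow _ _ (by omega)
    omega
  have hdeg : H.natDegree ≤ d := by
    refine (natDegree_prod_le _ _).trans (Finset.sum_le_sum fun k hk => ?_)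
    refine (natDegree_sub_le _ _).trans ?_
    rw [natDegree_X_pow, natDegree_X]
    have h2 : 1 ≤ q ^ k := Nat.one_le_pow _ _ (by omega)
    exact max_le le_rfl h2
  have hd2 : 2 * d ≤ 3 * q ^ u := by
    have h1 : d ≤ ∑ k ∈ Icc 1 u, q ^ k :=
      Finset.sum_le_sum_of_subset fun k hk => mem_Icc.2 (hSu k hk)
    have h2 := CHS.sum_pow_le q hq3 u
    omega
  have hcond : 100 * d ^ 2 ≤ Fintype.card K := by
    rw [hcardK]
    have h1 : 4 * d ^ 2 ≤ 9 * (q ^ u) ^ 2 := by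
      calc 4 * d ^ 2 = (2 * d) ^ 2 := by ring
        _ ≤ (3 * q ^ u) ^ 2 := Nat.pow_le_pow_left hd2 2
        _ = 9 * (q ^ u) ^ 2 := by ring
    have h2 : 243 ≤ q ^ 5 := by
      calc 243 = 3 ^ 5 := by norm_num
        _ ≤ q ^ 5 := Nat.pow_le_pow_left hq3 5
    have h3 : q ^ 5 * (q ^ u) ^ 2 ≤ q ^ (2 * (u + t) + 1) := by
      rw [← pow_mul, ← pow_add]
      exact Nat.pow_le_pow_right (by omega) (by omega)
    have h4 : 243 * (q ^ u) ^ 2 ≤ q ^ 5 * (q ^ u) ^ 2 := Nat.mul_le_mul_right _ h2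
    nlinarith
  have hsq := hS F K S hSne fun k hk => (hSu k hk).1
  have h1 := hW K hK H d hd1 hdeg hcond hsq
  have h2 : ∀ a : K, quadraticChar K (H.eval a) = ∏ k ∈ S, quadraticChar K (a ^ (q ^ k) - a) := by
    intro a
    rw [hH, eval_prod, map_prod]
    refine Finset.prod_congr rfl fun k _ => ?_
    rw [eval_sub, eval_pow, eval_X]
  rw [Finset.sum_congr rfl fun a _ => (h2 a).symm]
  refine h1.trans ?_
  have h3 : (2 : ℝ) * d ≤ 3 * (q : ℝ) ^ u := by exact_mod_cast hd2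
  have h4 : (0 : ℝ) ≤ √(Fintype.card K) := Real.sqrt_nonneg _
  have h5 : (8 : ℝ) * d ≤ 12 * (q : ℝ) ^ u := by linarith
  exact mul_le_mul_of_nonneg_right h5 h4

end Pool.Agent.Work.TC
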