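import Pool.Agent.Work.MP_223b32_tc.Interface

/-!
# Block NV: nonvanishing in Stepanov's method
-/

namespace Pool.Agent.Work.TC.NV

open Finset Polynomial

variable {E : Type} [Field E]

/-- splitting off the first nonzero term -/
theorem split (Q J : ℕ) (r : Fin J → E[X]) (k : Fin J) (h0 : ∀ j, j < k → r j = 0) :
    ∃ A : E[X], ∑ j, r j * X ^ ((j : ℕ) * Q) = X ^ ((k : ℕ) * Q) * (r k + X ^ Q * A) := by
  refine ⟨∑ j ∈ univ.filter (fun j : Fin J => k < j), r j * X ^ (((j : ℕ) - k - 1) * Q), ?_⟩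
  have h1 : ∀ j : Fin J, r j * X ^ ((j : ℕ) * Q) =
      X ^ ((k : ℕ) * Q) * ((if j = k then r k else 0) +
        X ^ Q * (if k < j then r j * X ^ (((j : ℕ) - k - 1) * Q) else 0)) := by
    intro j
    rcases lt_trichotomy j k with h | h | h
    · rw [h0 j h, if_neg h.ne, if_neg (not_lt_of_gt h)]
      simp
    · subst h
      rw [if_pos rfl, if_neg (lt_irrefl _)]
      ring
    · rw [if_neg h.ne', if_pos h, zero_add]
      have h2 : (j : ℕ) * Q = (k : ℕ) * Q + (Q + ((j : ℕ) - k - 1) * Q) := by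
        have h3 : (k : ℕ) < j := h
        have h4 : (j : ℕ) = (k : ℕ) + (1 + ((j : ℕ) - k - 1)) := by omega
        conv_lhs => rw [h4]
        ring
      rw [h2, pow_add, pow_add]
      ring
  rw [Finset.sum_congr rfl fun j _ => h1 j, ← Finset.mul_sum, Finset.sum_add_distrib,
    ← Finset.mul_sum, Finset.sum_ite_eq' univ k, if_pos (mem_univ _), Finset.sum_filter]

variable [Fintype E]

theorem key (hE : ringChar E ≠ 2) (H : E[X]) (d D J : ℕ) (hd : H.natDegree ≤ d)
    (hD : 2 * D + d ≤ Fintype.card E) (hH0 : H.eval 0 ≠ 0)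
    (hns : ¬ ∃ (c : E) (R : E[X]), H = C c * R ^ 2) (r s : Fin J → E[X])
    (hr : ∀ j, r j ∈ degreeLT E D) (hs : ∀ j, s j ∈ degreeLT E D)
    (hsum : ∑ j, (r j + s j * H ^ (Fintype.card E / 2)) * X ^ ((j : ℕ) * Fintype.card E) = 0)
    (k : Fin J) (hk : ∀ j, j < k → r j = 0 ∧ s j = 0) : r k = 0 ∧ s k = 0 := by
  set Q := Fintype.card E with hQ
  set u := Q / 2 with hu
  have hQodd : 2 * u + 1 = Q := by
    have := FiniteField.odd_card_of_char_ne_two hE
    omega
  obtain ⟨A, hA⟩ := split Q J r k fun j hj => (hk j hj).1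
  obtain ⟨B, hB⟩ := split Q J s k fun j hj => (hk j hj).2
  have h1 : X ^ ((k : ℕ) * Q) * ((r k + X ^ Q * A) + (s k + X ^ Q * B) * H ^ u) = 0 := by
    have h2 : ∑ j, (r j + s j * H ^ u) * X ^ ((j : ℕ) * Q) =
        ∑ j, r j * X ^ ((j : ℕ) * Q) + (∑ j, s j * X ^ ((j : ℕ) * Q)) * H ^ u := by
      rw [Finset.sum_mul, ← Finset.sum_add_distrib]
      exact Finset.sum_congr rfl fun j _ => by ring
    rw [h2, hA, hB] at hsum
    rw [← hsum]
    ring
  have h2 : (r k + X ^ Q * A) = -((s k + X ^ Q * B) * H ^ u) := by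
    rcases mul_eq_zero.1 h1 with h | h
    · exact absurd h (pow_ne_zero _ X_ne_zero)
    · exact eq_neg_of_add_eq_zero_left h
  have hexp : H ^ Q = expand E Q H := (FiniteField.expand_card H).symm
  obtain ⟨H', hH'⟩ : ∃ H' : E[X], H ^ Q = C (H.eval 0) + X ^ Q * H' := by
    refine ⟨expand E Q (divX H), ?_⟩
    rw [hexp]
    conv_lhs => rw [← divX_mul_X_add H]
    rw [map_add, map_mul, expand_X, expand_C, coeff_zero_eq_eval_zero]
    ring
  have h3 : (r k + X ^ Q * A) ^ 2 * H = (s k + X ^ Q * B) ^ 2 * (C (H.eval 0) + X ^ Q * H') := by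
    rw [← hH', h2, ← hQodd]
    ring
  have h4 : X ^ Q ∣ r k ^ 2 * H - C (H.eval 0) * s k ^ 2 := by
    refine ⟨-(2 * r k * A + X ^ Q * A ^ 2) * H + (s k + X ^ Q * B) ^ 2 * H' +
      (2 * s k * B + X ^ Q * B ^ 2) * C (H.eval 0), ?_⟩
    linear_combination h3
  have hdr : ∀ p : E[X], p ∈ degreeLT E D → p ≠ 0 → p.natDegree < D := by
    intro p hp hp0
    rw [mem_degreeLT] at hp
    exact (natDegree_lt_iff_degree_lt hp0).2 hp
  have h5 : r k ^ 2 * H - C (H.eval 0) * s k ^ 2 = 0 := by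
    by_contra hne
    have h6 := natDegree_le_of_dvd h4 hne
    rw [natDegree_X_pow] at h6
    have h7 : (r k ^ 2 * H).natDegree < Q := by
      by_cases h0 : r k = 0
      · rw [h0]; simp; omega
      · have h8 := hdr _ (hr k) h0
        have h9 := natDegree_mul_le (p := r k ^ 2) (q := H)
        have h10 := natDegree_pow_le (p := r k) (n := 2)
        omega
    have h8 : (C (H.eval 0) * s k ^ 2).natDegree < Q := by
      by_cases h0 : s k = 0
      · rw [h0]; simp; omega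
      · have h8 := hdr _ (hs k) h0
        have h9 := natDegree_mul_le (p := C (H.eval 0)) (q := s k ^ 2)
        have h10 := natDegree_pow_le (p := s k) (n := 2)
        rw [natDegree_C] at h9
        omega
    have h9 := natDegree_sub_le (r k ^ 2 * H) (C (H.eval 0) * s k ^ 2)
    have h10 := max_lt h7 h8
    omega
  have h6 : r k ^ 2 * H = C (H.eval 0) * s k ^ 2 := sub_eq_zero.1 h5
  have hH : H ≠ 0 := by
    rintro rfl
    simp at hH0
  by_cases hr0 : r k = 0
  · rw [hr0] at h6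
    have h7 : C (H.eval 0) * s k ^ 2 = 0 := by rw [← h6]; ring
    rcases mul_eq_zero.1 h7 with h | h
    · exact absurd (C_eq_zero.1 h) hH0
    · exact ⟨hr0, pow_eq_zero_iff (two_ne_zero) |>.1 h⟩
  · exfalso
    have h7 : r k ^ 2 ∣ s k ^ 2 := by
      have h8 : r k ^ 2 ∣ C (H.eval 0) * s k ^ 2 := ⟨H, h6.symm⟩
      have h9 : IsUnit (C (H.eval 0)) := isUnit_C.2 (isUnit_iff_ne_zero.2 hH0)
      exact (h9.dvd_mul_left).1 h8
    have h8 : r k ∣ s k := (IsIntegrallyClosed.pow_dvd_pow_iff two_ne_zero).1 h7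
    obtain ⟨R, hR⟩ := h8
    refine hns ⟨H.eval 0, R, ?_⟩
    have h9 : r k ^ 2 * H = r k ^ 2 * (C (H.eval 0) * R ^ 2) := by
      rw [h6, hR]; ring
    exact mul_left_cancel₀ (pow_ne_zero _ hr0) h9

end Pool.Agent.Work.TC.NV

namespace Pool.Agent.Work.TC

open Finset Polynomial

theorem stmt_NV : Stmt_NV := by
  intro E _ _ hE H d D J hd hD hH0 hns r s hr hs hsum
  have h : ∀ k : ℕ, ∀ hk : k < J, r ⟨k, hk⟩ = 0 ∧ s ⟨k, hk⟩ = 0 := by
    intro k
    induction k using Nat.strong_induction_on with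
    | _ k ih =>
      intro hk
      exact NV.key hE H d D J hd hD hH0 hns r s hr hs hsum ⟨k, hk⟩ fun j hj =>
        ih j hj j.2
  exact ⟨fun j => (h j j.2).1, fun j => (h j j.2).2⟩

end Pool.Agent.Work.TC
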