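import Pool.Agent.Work.MP_223b32_tc.Interface

/-!
# Final assembly
-/

namespace Pool.Agent.Work.TC

open Finset Polynomial

/-- The bound for the number of exceptions. -/
theorem main_bound (hSUM : Stmt_SUM) (hEXT : Stmt_EXT) (hROOTS : Stmt_ROOTS) (F : Type) [Field F]
    [Fintype F] (hF : ringChar F ≠ 2) (n : ℕ) (hn : n.Prime) (hn2 : n ≠ 2) (r J : ℕ) (hr : 1 ≤ r)
    (hJ : 1 ≤ J) :
    ((exceptional F n r J).ncard : ℝ) ≤
      40 * ((n : ℝ) * r) ^ (2 * J) * 2 ^ (-(orderOf (2 : ZMod n) : ℝ) / (8 * J)) *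
        ((irr F n).ncard : ℝ) ^ r := by
  obtain ⟨K, _, _, _, hK⟩ := hEXT F n hn.pos
  have h1 := hSUM F K hF n hn hn2 hK r J hr hJ
  have h2 := hROOTS F K n hn hK r fun f => ¬ TateUpTo F J (n - 1) f
  have h3 := hROOTS F K n hn hK 1 fun _ => True
  have h4 : {f : Fin r → F[X] | (∀ t, f t ∈ irr F n) ∧ ¬ TateUpTo F J (n - 1) f} =
      exceptional F n r J := rfl
  rw [h4] at h2
  have h5 : Nat.card {a : Fin r → K // (∀ t, a t ∉ (algebraMap F K).range) ∧
      ¬ TateUpTo F J (n - 1) fun t => minpoly F (a t)} =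
      Nat.card {a : Fin r → K // (∀ t, a t ∉ (algebraMap F K).range) ∧ Bad F J (n - 1) a} := rfl
  rw [h5] at h2
  have h6 : Nat.card {a : Fin 1 → K // (∀ t, a t ∉ (algebraMap F K).range) ∧ True} =
      Nat.card {a : K // a ∉ (algebraMap F K).range} := by
    refine Nat.card_congr ⟨fun a => ⟨a.1 0, a.2.1 0⟩, fun a => ⟨fun _ => a.1, fun _ => a.2, trivial⟩,
      fun a => ?_, fun a => rfl⟩
    refine Subtype.ext (funext fun t => ?_)
    rw [Subsingleton.elim t 0]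
  have h7 : {f : Fin 1 → F[X] | (∀ t, f t ∈ irr F n) ∧ True}.ncard = (irr F n).ncard := by
    rw [← Nat.card_coe_set_eq, ← Nat.card_coe_set_eq]
    refine Nat.card_congr ⟨fun f => ⟨f.1 0, f.2.1 0⟩, fun f => ⟨fun _ => f.1, fun _ => f.2, trivial⟩,
      fun f => ?_, fun f => rfl⟩
    refine Subtype.ext (funext fun t => ?_)
    rw [Subsingleton.elim t 0]
  rw [h6, h7, pow_one] at h3
  rw [← h2, ← h3] at h1
  push_cast at h1
  rw [mul_pow] at h1
  have hn0 : (0 : ℝ) < (n : ℝ) ^ r := by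
    have := hn.pos
    positivity
  have h8 : (n : ℝ) ^ r * ((exceptional F n r J).ncard : ℝ) ≤ (n : ℝ) ^ r *
      (40 * ((n : ℝ) * r) ^ (2 * J) * 2 ^ (-(orderOf (2 : ZMod n) : ℝ) / (8 * J)) *
        ((irr F n).ncard : ℝ) ^ r) := by
    refine h1.trans (le_of_eq ?_)
    ring
  exact le_of_mul_le_mul_left h8 hn0

end Pool.Agent.Work.TC
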