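import Pool.Agent.Work.MP_223b32_tc.FLA
import Pool.Agent.Work.MP_223b32_tc.LIN
import Pool.Agent.Work.MP_223b32_tc.MOD8
import Pool.Agent.Work.MP_223b32_tc_h25.FROB
import Pool.Agent.Work.MP_223b32_tc_h25.RED
import Pool.Agent.Work.MP_223b32_tc_helper10.EP
import Pool.Agent.Work.MP_223b32_tc_helper10.PC
import Pool.Agent.Work.MP_223b32_tc_helper15.COUNT
import Pool.Agent.Work.MP_223b32_tc_helper15.FE
import Pool.Agent.Work.MP_223b32_tc_helper15.SUM
import Pool.Agent.Work.MP_223b32_tc_helper28.CHS
import Pool.Agent.Work.MP_223b32_tc_helper28.EXI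
import Pool.Agent.Work.MP_223b32_tc_helper28.MAIN
import Pool.Agent.Work.MP_223b32_tc_helper28.NV
import Pool.Agent.Work.MP_223b32_tc_helper28.ONE
import Pool.Agent.Work.MP_223b32_tc_helper39.WEIL
import Pool.Agent.Work.MP_223b32_tc_helper44.NA
import Pool.Agent.Work.MP_223b32_tc_helper50.B0
import Pool.Agent.Work.MP_223b32_tc_helper50.RHO
import Pool.Agent.Work.MP_223b32_tc_helper52.NW
import Pool.Agent.Work.MP_223b32_tc_helper54.B4
import Pool.Agent.Work.MP_223b32_tc_helper65.LE
import Pool.Agent.Work.MP_223b32_tc_helper65.RU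
import Pool.Agent.Work.MP_223b32_tc_helper76.ROOTS
import Pool.Agent.Work.MP_223b32_tc_helper82.DSYM
import Pool.Agent.Work.MP_223b32_tc_helper82.EXT
import Pool.Agent.Work.MP_223b32_tc_helper82.ORD
import Pool.Agent.Work.MP_223b32_tc_helper83.MOORE
import Pool.Agent.Work.MP_223b32_tc_helper88.SQF
import Pool.Agent.Work.MP_223b32_tc_helper88.STAR
import Pool.Agent.Work.MP_223b32_tc_helper94.HD

/-!
# The analytic Tate conjecture for products of powers of hyperelliptic curves over a fixed finite
field

`F` is ANY finite field of odd characteristic, `n = 2 g + 1` a prime, `f` a monic irreducible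
polynomial of degree `n` over `F`, `C` the hyperelliptic curve `y ^ 2 = f(x)` of genus `g`.
For all but a tiny proportion of the `r`-tuples of such `f`, the analytic Tate conjecture holds in
codimension at most `J` for all products of powers of the Jacobians of the `r` curves (times
supersingular abelian varieties) over all finite extensions of `F`; the proportion of the
exceptions is at most `40 (n r) ^ (2 J) 2 ^ (- m / (8 J))`, `m` the order of `2` modulo `n`, and
`m > y` for all but at most `y ^ 2` primes `n`. The field is fixed, the genus grows.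

Idea of the proof.

* Let `a` be a root of `f` in `K = F_(q^n)`, `χ` the quadratic character of `K`. The numerator of
  the zeta function of `C` is `∑ b_m T ^ m` (up to the sign of `T`) with
  `b_m = ∑ χ(h(a))`, `h` monic of degree `m`. By the formula of Moore and Carlitz for the product
  of all the `h(a)`, `b_m = q ^ m + 2 (δ_1 + ⋯ + δ_m)` modulo `4`, `(-1) ^ δ_k = χ(a ^ (q ^ k) - a)`.
* So modulo `2` the Frobenius eigenvalues are the nontrivial `n`-th roots of unity `ζ`, and modulo
  `4` they are known: `α ^ n = 1 + 2 Z(ζ)`, `Z(ζ)` linear in the bits `δ_k`. The square of this,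
  modulo `8`, turns each multiplicative relation of the eigenvalues (and of `q`) which is not trivial
  into a linear relation of the numbers `Z(ζ) + Z(ζ) ^ 2` in the field with `2 ^ m` elements.
* The linear relation with at most `2 J` terms is a system of at least `m / (4 J)` independent
  linear conditions for the bits (a gap argument for linearised polynomials).
* The first `g - t` bits are equidistributed by a Weil bound for quadratic character sums, linear in
  the degree, over any finite field (Stepanov's method with Hasse derivatives).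
-/

namespace Pool.Agent.Work.TC.T2

open Pool.Agent.Work.TC Polynomial

theorem result :
    (∀ (F : Type) [Field F] [Fintype F], ringChar F ≠ 2 →
      ∀ n : ℕ, n.Prime → n ≠ 2 → ∀ r J : ℕ, 1 ≤ r → 1 ≤ J →
        ((exceptional F n r J).ncard : ℝ) ≤
          40 * ((n : ℝ) * r) ^ (2 * J) * 2 ^ (-(orderOf (2 : ZMod n) : ℝ) / (8 * J)) *
            ((irr F n).ncard : ℝ) ^ r) ∧
    ∀ y : ℕ, {n : ℕ | n.Prime ∧ n ≠ 2 ∧ orderOf (2 : ZMod n) ≤ y}.Finite ∧
      {n : ℕ | n.Prime ∧ n ≠ 2 ∧ orderOf (2 : ZMod n) ≤ y}.ncard ≤ y ^ 2 := by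
  have hNA : Stmt_NA := stmt_NA stmt_NV (stmt_EXI stmt_HD)
  have hCHS : Stmt_CHS := stmt_CHS (stmt_WEIL hNA) stmt_SQF
  have hFROB : Stmt_FROB := stmt_FROB stmt_B0 stmt_EP stmt_LE stmt_PC stmt_NW
  have hONE : Stmt_ONE := stmt_ONE hFROB (stmt_B4 stmt_MOORE) stmt_FE stmt_RHO stmt_RED
    (stmt_MOD8 stmt_RU) stmt_STAR stmt_DSYM stmt_FLA
  have hSUM : Stmt_SUM := stmt_SUM hONE stmt_LIN (stmt_COUNT hCHS)
  exact ⟨fun F _ _ hF n hn hn2 r J hr hJ =>
    main_bound hSUM stmt_EXT stmt_ROOTS F hF n hn hn2 r J hr hJ, stmt_ORD⟩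

end Pool.Agent.Work.TC.T2
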